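import Pool.Agent.H20.FreeParaE
import Pool.Agent.H20.FreeParaF

set_option autoImplicit false

namespace Pool.Agent.Results.MP_f94ac9_gt.Paracompact

open Topology Pool.Agent.H20.FreePara

universe u

/-- Every free topological linear space over the discrete reals on a metrizable space is
Hausdorff and paracompact; and the free topological linear space over the discrete reals
exists for every Tychonoff space (in particular for every metrizable one). -/
theorem result :
    (∀ (X : Type u) [TopologicalSpace X] [TopologicalSpace.MetrizableSpace X]
      (L : Type u) [AddCommGroup L] [Module ℝ L] [TopologicalSpace L] (i : X → L),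
      IsFree X L i → T2Space L ∧ ParacompactSpace L) ∧
    (∀ (X : Type u) [TopologicalSpace X] [T35Space X],
      ∃ (L : Type u) (g : AddCommGroup L) (m : Module ℝ L) (t : TopologicalSpace L)
        (i : X → L), @IsFree X L _ g m t i) := by
  refine ⟨?_, ?_⟩
  · intro X _ _ L _ _ _ i hF
    exact ⟨hF.tls.t2, para_main hF⟩
  · intro X _ _
    exact exists_free

end Pool.Agent.Results.MP_f94ac9_gt.Paracompact
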